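import Pool.Agent.H741.EL.Stm
import Pool.Graph.R_seed8.Helper265.JcD

/-!
# Project EL, part SEP: a simple closed curve in the plane has a bounded complementary component
-/

set_option autoImplicit false
open Set Filter Metric Topology

namespace Pool.Agent.H286.EL

open Pool.Agent.H741.EL

/-- a continuous logarithm of the constant function one is constant -/
theorem const_of_exp {X : Type*} [TopologicalSpace X] [PreconnectedSpace X] {h : X → ℂ}
    (hc : Continuous h) (he : ∀ x, Complex.exp (h x) = 1) (x y : X) : h x = h y := by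
  have hk : ∀ t, ∃ k : ℤ, h t = k * (2 * Real.pi * Complex.I) := fun t =>
    Complex.exp_eq_one_iff.1 (he t)
  choose k hk using hk
  have hpi : (2 * Real.pi * Complex.I : ℂ) ≠ 0 := by
    simp [Real.pi_ne_zero, Complex.I_ne_zero]
  have hkc : Continuous k := by
    rw [Int.isClosedEmbedding_coe_real.isInducing.continuous_iff]
    have h1 : ((fun x : ℤ => (x : ℝ)) ∘ k) = fun t => ((h t) / (2 * Real.pi * Complex.I)).re := by
      funext t
      rw [hk t, mul_div_cancel_right₀ _ hpi]
      simp
    show Continuous ((fun x : ℤ => (x : ℝ)) ∘ k)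
    rw [h1]
    exact Complex.continuous_re.comp (hc.div_const _)
  have h2 : k x = k y := PreconnectedSpace.constant inferInstance hkc
  rw [hk x, hk y, h2]

/-- the quotient of the distances to the end points of a path has a logarithm off the path -/
theorem log_path (α : C(unitInterval, ℂ)) : ∃ L : ℂ → ℂ, ContinuousOn L (range α)ᶜ ∧
    ∀ z ∈ (range α)ᶜ, Complex.exp (L z) = (α 1 - z) / (α 0 - z) := by
  classical
  have hne : ∀ (t : unitInterval) (z : ((range α)ᶜ : Set ℂ)), α t - z ≠ 0 := by
    intro t z h0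
    exact z.2 ⟨t, sub_eq_zero.1 h0⟩
  let H : C(unitInterval × ((range α)ᶜ : Set ℂ), {w : ℂ // w ≠ 0}) :=
    ⟨fun p => ⟨(α p.1 - p.2) / (α 0 - p.2), div_ne_zero (hne _ _) (hne _ _)⟩, by
      refine Continuous.subtype_mk ?_ _
      refine Continuous.div ?_ ?_ fun p => hne _ _
      · fun_prop
      · fun_prop⟩
  let f : C(((range α)ᶜ : Set ℂ), ℂ) := ContinuousMap.const _ 0
  have H0 : ∀ a, H (0, a) = (fun z : ℂ => (⟨_, z.exp_ne_zero⟩ : {z : ℂ // z ≠ 0})) (f a) := by
    intro a
    apply Subtype.ext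
    change (α 0 - a) / (α 0 - a) = Complex.exp 0
    rw [div_self (hne _ _), Complex.exp_zero]
  let L' := Complex.isCoveringMap_exp.liftHomotopy H f H0
  have hL' := Complex.isCoveringMap_exp.liftHomotopy_lifts H f H0
  refine ⟨fun z => if h : z ∈ (range α)ᶜ then L' (1, ⟨z, h⟩) else 0, ?_, ?_⟩
  · rw [continuousOn_iff_continuous_domRestrict]
    have h1 : (range α)ᶜ.domRestrict
        (fun z => if h : z ∈ (range α)ᶜ then L' (1, ⟨z, h⟩) else 0) = fun z => L' (1, z) := by
      funext z
      rw [domRestrict_apply]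
      exact dif_pos z.2
    rw [h1]
    exact L'.continuous.comp (continuous_const.prodMk continuous_id)
  · intro z hz
    simp only [dif_pos hz]
    have h2 := congrArg Subtype.val (congrFun hL' (1, ⟨z, hz⟩))
    exact h2

/-- the quotient has no logarithm off its zero and its pole -/
theorem no_log {x y : ℂ} (hxy : x ≠ y) (L : ℂ → ℂ) (hL : ContinuousOn L {z | z ≠ x ∧ z ≠ y})
    (he : ∀ z, z ≠ x → z ≠ y → Complex.exp (L z) = (y - z) / (x - z)) : False := by
  set ρ : ℝ := ‖y - x‖ / 2 with hρ
  have hn : 0 < ‖y - x‖ := norm_pos_iff.2 (sub_ne_zero.2 hxy.symm)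
  have hρ0 : 0 < ρ := by positivity
  set z : ℝ → ℂ := fun θ => x + ρ * Complex.exp (θ * Complex.I) with hz
  have hzx : ∀ θ, z θ - x = ρ * Complex.exp (θ * Complex.I) := by
    intro θ
    simp only [hz]
    ring
  have hzn : ∀ θ, ‖z θ - x‖ = ρ := by
    intro θ
    rw [hzx, norm_mul, Complex.norm_exp_ofReal_mul_I, mul_one, Complex.norm_real,
      Real.norm_of_nonneg hρ0.le]
  have h1 : ∀ θ, z θ ≠ x := by
    intro θ h
    have := hzn θ
    rw [h, sub_self, norm_zero] at this
    exact hρ0.ne this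
  have h2 : ∀ θ, z θ ≠ y := by
    intro θ h
    have := hzn θ
    rw [h] at this
    linarith
  have hzc : Continuous z := by
    simp only [hz]
    fun_prop
  have hsl : ∀ θ, (y - z θ) / (y - x) ∈ Complex.slitPlane := by
    intro θ
    have h3 : (y - z θ) / (y - x) = 1 + (-(z θ - x)) / (y - x) := by
      have h4 : y - x ≠ 0 := sub_ne_zero.2 hxy.symm
      field_simp
      ring
    rw [h3]
    apply Complex.mem_slitPlane_of_norm_lt_one
    rw [norm_div, norm_neg, hzn, div_lt_one hn]
    linarith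
  set g : ℝ → ℂ := fun θ => L (z θ) - Complex.log ((y - z θ) / (y - x)) + θ * Complex.I with hg
  have hgc : Continuous g := by
    have h3 : Continuous fun θ => L (z θ) := hL.comp_continuous hzc fun θ => ⟨h1 θ, h2 θ⟩
    have h4 : Continuous fun θ => Complex.log ((y - z θ) / (y - x)) := by
      refine continuous_iff_continuousAt.2 fun θ => ContinuousAt.clog ?_ (hsl θ)
      exact (continuousAt_const.sub hzc.continuousAt).div_const _
    simp only [hg]
    exact (h3.sub h4).add (by fun_prop)
  have hge : ∀ θ, Complex.exp (g θ) = -(y - x) / ρ := by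
    intro θ
    have e1 : y - x ≠ 0 := sub_ne_zero.2 hxy.symm
    have e2 : y - z θ ≠ 0 := sub_ne_zero.2 (h2 θ).symm
    have e3 : x - z θ ≠ 0 := sub_ne_zero.2 (h1 θ).symm
    have e4 : (ρ : ℂ) ≠ 0 := by exact_mod_cast hρ0.ne'
    have e5 : Complex.exp (θ * Complex.I) = (z θ - x) / ρ := by
      rw [hzx]
      field_simp
    simp only [hg]
    rw [Complex.exp_add, Complex.exp_sub, he _ (h1 θ) (h2 θ),
      Complex.exp_log (Complex.slitPlane_ne_zero (hsl θ)), e5]
    field_simp
    ring
  have h5 := const_of_exp (h := fun θ => g θ - g 0) (hgc.sub continuous_const) (fun θ => by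
    rw [Complex.exp_sub, hge, hge, div_self]
    rw [← hge 0]
    exact Complex.exp_ne_zero _) (2 * Real.pi) 0
  have h6 : z (2 * Real.pi) = z 0 := by
    simp only [hz]
    push_cast
    rw [Complex.exp_two_pi_mul_I]
    simp
  simp only [hg, h6] at h5
  have h7 : (2 * Real.pi * Complex.I : ℂ) = 0 := by
    push_cast at h5
    linear_combination h5
  have hpi : (2 * Real.pi * Complex.I : ℂ) ≠ 0 := by
    simp [Real.pi_ne_zero, Complex.I_ne_zero]
  exact hpi h7

theorem t_SEP : S_SEP := by
  classical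
  intro γ hγ h01 hinj
  set Γ : Set ℂ := γ '' Icc 0 1 with hΓ
  have hK : IsCompact Γ := isCompact_Icc.image_of_continuousOn hγ
  by_contra hcon
  push Not at hcon
  -- the complement is connected
  obtain ⟨a, ha, hua⟩ := Pool.Agent.Helper265.Br.unb_ex hK
  have hconn : IsPreconnected Γᶜ := by
    have e : Γᶜ = connectedComponentIn Γᶜ a := by
      apply Subset.antisymm
      · intro b hb
        rw [Pool.Agent.Helper265.Br.unb_eq hK ha hb hua (hcon b hb)]
        exact mem_connectedComponentIn hb
      · exact connectedComponentIn_subset _ _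
    rw [e]
    exact isPreconnected_connectedComponentIn
  -- the two arcs
  let α : C(unitInterval, ℂ) := ⟨fun t => γ ((t : ℝ) / 2), hγ.comp_continuous (by fun_prop)
    fun t => ⟨by have := t.2.1; linarith, by have := t.2.2; linarith⟩⟩
  let β : C(unitInterval, ℂ) := ⟨fun t => γ (1 - (t : ℝ) / 2), hγ.comp_continuous (by fun_prop)
    fun t => ⟨by have := t.2.2; linarith, by have := t.2.1; linarith⟩⟩
  have hα0 : α 0 = γ 0 := by
    change γ (((0 : unitInterval) : ℝ) / 2) = γ 0
    norm_num
  have hα1 : α 1 = γ (1 / 2) := by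
    change γ (((1 : unitInterval) : ℝ) / 2) = γ (1 / 2)
    norm_num
  have hβ0 : β 0 = γ 0 := by
    change γ (1 - ((0 : unitInterval) : ℝ) / 2) = γ 0
    rw [h01]
    norm_num
  have hβ1 : β 1 = γ (1 / 2) := by
    change γ (1 - ((1 : unitInterval) : ℝ) / 2) = γ (1 / 2)
    norm_num
  have hxy : γ 0 ≠ γ (1 / 2) := by
    intro h
    have := hinj ⟨le_rfl, by norm_num⟩ ⟨by norm_num, by norm_num⟩ h
    norm_num at this
  have hαΓ : range α ⊆ Γ := by
    rintro _ ⟨t, rfl⟩
    exact ⟨(t : ℝ) / 2, ⟨by have := t.2.1; linarith, by have := t.2.2; linarith⟩, rfl⟩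
  have hβΓ : range β ⊆ Γ := by
    rintro _ ⟨t, rfl⟩
    exact ⟨1 - (t : ℝ) / 2, ⟨by have := t.2.2; linarith, by have := t.2.1; linarith⟩, rfl⟩
  have hinter : ∀ z, z ∈ range α → z ∈ range β → z = γ 0 ∨ z = γ (1 / 2) := by
    rintro _ ⟨s, rfl⟩ ⟨t, ht⟩
    have ht' : γ (1 - (t : ℝ) / 2) = γ ((s : ℝ) / 2) := ht
    have hs1 := s.2.1
    have hs2 := s.2.2
    have ht1 := t.2.1
    have ht2 := t.2.2
    rcases eq_or_lt_of_le ht1 with h0 | h0
    · left
      change γ ((s : ℝ) / 2) = γ 0
      rw [← ht', ← h0, h01]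
      norm_num
    · right
      have h1 : 1 - (t : ℝ) / 2 = (s : ℝ) / 2 :=
        hinj ⟨by linarith, by linarith⟩ ⟨by linarith, by linarith⟩ ht'
      change γ ((s : ℝ) / 2) = γ (1 / 2)
      congr 1
      linarith
  have hunion : ∀ z ∈ Γ, z ∈ range α ∨ z ∈ range β := by
    rintro _ ⟨t, ht, rfl⟩
    rcases le_total t (1 / 2) with h | h
    · left
      refine ⟨⟨2 * t, by linarith [ht.1], by linarith⟩, ?_⟩
      change γ (2 * t / 2) = γ t
      congr 1
      ring
    · right
      refine ⟨⟨2 * (1 - t), by linarith [ht.2], by linarith⟩, ?_⟩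
      change γ (1 - 2 * (1 - t) / 2) = γ t
      congr 1
      ring
  obtain ⟨LA, hLA, hLAe⟩ := log_path α
  obtain ⟨LB, hLB, hLBe⟩ := log_path β
  rw [hα0, hα1] at hLAe
  rw [hβ0, hβ1] at hLBe
  have hsA : Γᶜ ⊆ (range α)ᶜ := compl_subset_compl.2 hαΓ
  have hsB : Γᶜ ⊆ (range β)ᶜ := compl_subset_compl.2 hβΓ
  -- the difference is constant
  have hps : PreconnectedSpace (Γᶜ : Set ℂ) := Subtype.preconnectedSpace hconn
  have hconst : ∀ z ∈ Γᶜ, LA z - LB z = LA a - LB a := by
    intro z hz
    have h1 : Continuous fun w : (Γᶜ : Set ℂ) => LA w - LB w :=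
      continuousOn_iff_continuous_domRestrict.1 ((hLA.mono hsA).sub (hLB.mono hsB))
    have h2 := const_of_exp (h := fun w : (Γᶜ : Set ℂ) => LA w - LB w) h1 (fun w => by
      rw [Complex.exp_sub, hLAe _ (hsA w.2), hLBe _ (hsB w.2), div_self]
      rw [← hLAe _ (hsA w.2)]
      exact Complex.exp_ne_zero _) ⟨z, hz⟩ ⟨a, ha⟩
    exact h2
  have hc1 : Complex.exp (LA a - LB a) = 1 := by
    rw [Complex.exp_sub, hLAe _ (hsA ha), hLBe _ (hsB ha), div_self]
    rw [← hLAe _ (hsA ha)]
    exact Complex.exp_ne_zero _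
  -- glue
  set L : ℂ → ℂ := fun z => if z ∈ range α then LB z + (LA a - LB a) else LA z with hL
  have hL1 : ∀ z ∈ (range α)ᶜ, L z = LA z := by
    intro z hz
    exact if_neg hz
  have hL2 : ∀ z ∈ (range β)ᶜ, L z = LB z + (LA a - LB a) := by
    intro z hz
    by_cases h : z ∈ range α
    · exact if_pos h
    · rw [hL1 z h]
      have hzΓ : z ∈ Γᶜ := by
        intro h'
        rcases hunion z h' with h'' | h''
        · exact h h''
        · exact hz h''
      rw [← hconst z hzΓ]
      ring
  have hoA : IsOpen (range α)ᶜ := (isCompact_range α.continuous).isClosed.isOpen_compl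
  have hoB : IsOpen (range β)ᶜ := (isCompact_range β.continuous).isClosed.isOpen_compl
  refine no_log hxy L ?_ ?_
  · intro z hz
    apply ContinuousAt.continuousWithinAt
    by_cases h : z ∈ range α
    · have h' : z ∈ (range β)ᶜ := fun h'' => by
        rcases hinter z h h'' with h3 | h3
        · exact hz.1 h3
        · exact hz.2 h3
      have h4 : ContinuousOn L (range β)ᶜ := (hLB.add continuousOn_const).congr hL2
      exact h4.continuousAt (hoB.mem_nhds h')
    · have h4 : ContinuousOn L (range α)ᶜ := hLA.congr hL1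
      exact h4.continuousAt (hoA.mem_nhds h)
  · intro z hzx hzy
    by_cases h : z ∈ range α
    · have h' : z ∈ (range β)ᶜ := fun h'' => by
        rcases hinter z h h'' with h3 | h3
        · exact hzx h3
        · exact hzy h3
      rw [hL2 z h', Complex.exp_add, hc1, mul_one, hLBe z h']
    · rw [hL1 z h, hLAe z h]

end Pool.Agent.H286.EL
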